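import Mathlib
import Pool.Agent.H9.Phy

set_option autoImplicit false

namespace Pool.Agent.Results.MP_ae7dce_co.Counter

theorem result : Pool.Agent.H9.Phy.s 7 4 < Pool.Agent.H9.Phy.c 7 4 := Pool.Agent.H9.Phy.main

end Pool.Agent.Results.MP_ae7dce_co.Counter
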